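import Pool.Agent.H341.FS.Stm5
import Pool.Agent.H341.FS.FS_CYC
import Pool.Agent.H341.FS.FS_PER
import Pool.Agent.H341.FS.FS_XF

set_option autoImplicit false

/-!
# FS-17: `S_ASPW → S_AMI → S_ACOP → S_ORD`
-/

namespace Pool.Agent.H341.FS

open Monoid Function

universe u

namespace AM

variable {P : Type u} [Group P]

/-- the product of a signed list of conjugates -/
def vl (x : P) (l : List (P × Bool)) : P :=
  (l.map (fun t => t.1 * (if t.2 = true then x else x⁻¹) * t.1⁻¹)).prod

/-- the class sum of a signed list -/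
def cs (f : P → ℤ) (l : List (P × Bool)) : ℤ :=
  (l.map (fun t => if t.2 = true then f t.1 else - f t.1)).sum

/-- the inverse list -/
def il (l : List (P × Bool)) : List (P × Bool) := (l.map (fun t => (t.1, !t.2))).reverse

theorem vl_nil (x : P) : vl x [] = 1 := rfl

theorem vl_cons (x : P) (t : P × Bool) (l : List (P × Bool)) :
    vl x (t :: l) = t.1 * (if t.2 = true then x else x⁻¹) * t.1⁻¹ * vl x l := by
  simp [vl]

theorem vl_append (x : P) (l l' : List (P × Bool)) : vl x (l ++ l') = vl x l * vl x l' := by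
  simp [vl]

theorem cs_nil (f : P → ℤ) : cs f [] = 0 := rfl

theorem cs_cons (f : P → ℤ) (t : P × Bool) (l : List (P × Bool)) :
    cs f (t :: l) = (if t.2 = true then f t.1 else - f t.1) + cs f l := by
  simp [cs]

theorem cs_append (f : P → ℤ) (l l' : List (P × Bool)) : cs f (l ++ l') = cs f l + cs f l' := by
  simp [cs]

theorem il_cons (t : P × Bool) (l : List (P × Bool)) : il (t :: l) = il l ++ [(t.1, !t.2)] := by
  simp [il]

theorem vl_il (x : P) (l : List (P × Bool)) : vl x (il l) = (vl x l)⁻¹ := by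
  induction l with
  | nil => simp [il, vl]
  | cons t l ih =>
    rw [il_cons, vl_append, ih, vl_cons x t l, mul_inv_rev]
    congr 1
    obtain ⟨c, b⟩ := t
    cases b
    · simp [vl, mul_assoc]
    · simp [vl, mul_assoc]

theorem cs_il (f : P → ℤ) (l : List (P × Bool)) : cs f (il l) = - cs f l := by
  induction l with
  | nil => simp [il, cs]
  | cons t l ih =>
    rw [il_cons, cs_append, ih, cs_cons]
    obtain ⟨c, b⟩ := t
    cases b
    · simp [cs]
    · simp [cs]

/-- elements of the normal closure are products of signed lists -/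
theorem exists_vl (x : P) {u : P} (hu : u ∈ Subgroup.normalClosure ({x} : Set P)) :
    ∃ l, vl x l = u := by
  unfold Subgroup.normalClosure at hu
  induction hu using Subgroup.closure_induction with
  | mem y hy =>
    rw [Group.mem_conjugatesOfSet_iff] at hy
    obtain ⟨z, hz, hzy⟩ := hy
    rw [Set.mem_singleton_iff] at hz
    subst hz
    obtain ⟨c, hc⟩ := isConj_iff.1 hzy
    exact ⟨[(c, true)], by simp [vl, hc]⟩
  | one => exact ⟨[], rfl⟩
  | mul y z _ _ hy hz =>
    obtain ⟨l, rfl⟩ := hy
    obtain ⟨l', rfl⟩ := hz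
    exact ⟨l ++ l', vl_append x l l'⟩
  | inv y _ hy =>
    obtain ⟨l, rfl⟩ := hy
    exact ⟨il l, vl_il x l⟩

/-- elements of `[N, N]` are products of signed lists with class sums `0` -/
theorem exists_comm (x : P) {u : P}
    (hu : u ∈ ⁅Subgroup.normalClosure ({x} : Set P), Subgroup.normalClosure ({x} : Set P)⁆) :
    ∃ l, vl x l = u ∧ ∀ f : P → ℤ, cs f l = 0 := by
  rw [Subgroup.commutator_def] at hu
  induction hu using Subgroup.closure_induction with
  | mem y hy =>
    obtain ⟨g, hg, h, hh, rfl⟩ := hy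
    obtain ⟨l, rfl⟩ := exists_vl x hg
    obtain ⟨l', rfl⟩ := exists_vl x hh
    refine ⟨l ++ l' ++ il l ++ il l', ?_, fun f => ?_⟩
    · rw [vl_append, vl_append, vl_append, vl_il, vl_il, commutatorElement_def]
    · rw [cs_append, cs_append, cs_append, cs_il, cs_il]
      ring
  | one => exact ⟨[], rfl, fun f => rfl⟩
  | mul y z _ _ hy hz =>
    obtain ⟨l, rfl, hl⟩ := hy
    obtain ⟨l', rfl, hl'⟩ := hz
    exact ⟨l ++ l', vl_append x l l', fun f => by rw [cs_append, hl, hl', add_zero]⟩
  | inv y _ hy =>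
    obtain ⟨l, rfl, hl⟩ := hy
    exact ⟨il l, vl_il x l, fun f => by rw [cs_il, hl, neg_zero]⟩

/-- the signed list of a power of a conjugate -/
theorem exists_pow (x c : P) (n : ℤ) :
    ∃ l, vl x l = (c * x * c⁻¹) ^ n ∧ ∀ f : P → ℤ, cs f l = f c * n := by
  have key : ∀ (b : Bool) (k : ℕ),
      vl x (List.replicate k (c, b)) = (c * (if b = true then x else x⁻¹) * c⁻¹) ^ k ∧
        ∀ f : P → ℤ, cs f (List.replicate k (c, b)) = k * (if b = true then f c else - f c) := by
    intro b k
    constructor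
    · simp [vl]
    · intro f
      simp [cs]
  rcases Int.eq_nat_or_neg n with ⟨k, rfl | rfl⟩
  · obtain ⟨h1, h2⟩ := key true k
    refine ⟨_, h1.trans ?_, fun f => (h2 f).trans ?_⟩
    · rw [zpow_natCast, if_pos rfl]
    · rw [if_pos rfl, mul_comm]
  · obtain ⟨h1, h2⟩ := key false k
    refine ⟨_, h1.trans ?_, fun f => (h2 f).trans ?_⟩
    · rw [zpow_neg, zpow_natCast, if_neg Bool.false_ne_true, ← inv_pow]
      congr 1
      group
    · rw [if_neg Bool.false_ne_true]
      ring

theorem exists_powl (x : P) (l : List (P × ℤ)) :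
    ∃ L, vl x L = (l.map (fun t => (t.1 * x * t.1⁻¹) ^ t.2)).prod ∧
      ∀ f : P → ℤ, cs f L = (l.map (fun t => f t.1 * t.2)).sum := by
  induction l with
  | nil => exact ⟨[], rfl, fun f => rfl⟩
  | cons t l ih =>
    obtain ⟨L, h1, h2⟩ := ih
    obtain ⟨M, h3, h4⟩ := exists_pow x t.1 t.2
    refine ⟨M ++ L, ?_, fun f => ?_⟩
    · rw [vl_append, h1, h3, List.map_cons, List.prod_cons]
    · rw [cs_append, h2, h4, List.map_cons, List.sum_cons]

/-- `f` is the indicator function of the coset `g N`, `N` the normal closure of `x` -/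
def IsCl (x g : P) (f : P → ℤ) : Prop :=
  (∀ c, g⁻¹ * c ∈ Subgroup.normalClosure ({x} : Set P) → f c = 1) ∧
    ∀ c, g⁻¹ * c ∉ Subgroup.normalClosure ({x} : Set P) → f c = 0

/-- identity property -/
def IdP (x : P) : Prop := ∀ l, vl x l = 1 → ∀ g f, IsCl x g f → cs f l = 0

theorem asph_of_idP {x : P} (h : IdP x) : Asph x := by
  intro l hl g f hf1 hf0
  obtain ⟨L, h1, h2⟩ := exists_powl x l
  obtain ⟨M, h3, h4⟩ := exists_comm x hl
  have h5 := h (L ++ il M) (by rw [vl_append, vl_il, h1, h3, mul_inv_cancel]) g f ⟨hf1, hf0⟩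
  rw [cs_append, cs_il, h4, h2] at h5
  simpa using h5

theorem idP_of_asph {x : P} (h : Asph x) : IdP x := by
  intro l hl g f hf
  have h1 : ((l.map (fun t => (t.1, if t.2 = true then (1 : ℤ) else -1))).map
      (fun t => (t.1 * x * t.1⁻¹) ^ t.2)).prod = vl x l := by
    rw [List.map_map, vl]
    congr 1
    refine List.map_congr_left fun t _ => ?_
    obtain ⟨c, b⟩ := t
    cases b
    · simp [mul_assoc]
    · simp
  have h2 : ((l.map (fun t => (t.1, if t.2 = true then (1 : ℤ) else -1))).map
      (fun t => f t.1 * t.2)).sum = cs f l := by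
    rw [List.map_map, cs]
    congr 1
    refine List.map_congr_left fun t _ => ?_
    obtain ⟨c, b⟩ := t
    cases b
    · simp
    · simp
  rw [← h2]
  refine h _ ?_ g f hf.1 hf.2
  rw [h1, hl]
  exact Subgroup.one_mem _

theorem nc_conj (w c : P) : Subgroup.normalClosure ({c * w * c⁻¹} : Set P) =
    Subgroup.normalClosure ({w} : Set P) := by
  apply le_antisymm
  · apply Subgroup.normalClosure_le_normal
    intro z hz
    rw [Set.mem_singleton_iff] at hz
    subst hz
    exact Subgroup.normalClosure_normal.conj_mem _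
      (Subgroup.subset_normalClosure (Set.mem_singleton _)) c
  · apply Subgroup.normalClosure_le_normal
    intro z hz
    rw [Set.mem_singleton_iff] at hz
    subst hz
    have h := Subgroup.normalClosure_normal.conj_mem _
      (Subgroup.subset_normalClosure (Set.mem_singleton (c * z * c⁻¹))) c⁻¹
    have h2 : c⁻¹ * (c * z * c⁻¹) * c⁻¹⁻¹ = z := by group
    rwa [h2] at h

theorem idP_conj {w : P} (h : IdP w) (c : P) : IdP (c * w * c⁻¹) := by
  intro l hl g f hf
  have h1 : vl w (l.map (fun t => (t.1 * c, t.2))) = vl (c * w * c⁻¹) l := by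
    rw [vl, vl, List.map_map]
    congr 1
    refine List.map_congr_left fun t _ => ?_
    obtain ⟨d, b⟩ := t
    cases b
    · simp [mul_assoc]
    · simp [mul_assoc]
  have h2 : cs (fun d => f (d * c⁻¹)) (l.map (fun t => (t.1 * c, t.2))) = cs f l := by
    rw [cs, cs, List.map_map]
    congr 1
    refine List.map_congr_left fun t _ => ?_
    simp
  rw [← h2]
  refine h _ (by rw [h1, hl]) (g * c) _ ?_
  have h3 : ∀ d, (g * c)⁻¹ * d ∈ Subgroup.normalClosure ({w} : Set P) ↔
      g⁻¹ * (d * c⁻¹) ∈ Subgroup.normalClosure ({c * w * c⁻¹} : Set P) := by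
    intro d
    rw [nc_conj]
    constructor
    · intro hd
      have := Subgroup.normalClosure_normal.conj_mem _ hd c
      have h4 : c * ((g * c)⁻¹ * d) * c⁻¹ = g⁻¹ * (d * c⁻¹) := by group
      rwa [h4] at this
    · intro hd
      have := Subgroup.normalClosure_normal.conj_mem _ hd c⁻¹
      have h4 : c⁻¹ * (g⁻¹ * (d * c⁻¹)) * c⁻¹⁻¹ = (g * c)⁻¹ * d := by group
      rwa [h4] at this
  exact ⟨fun d hd => hf.1 _ ((h3 d).1 hd), fun d hd => hf.2 _ fun h4 => hd ((h3 d).2 h4)⟩

theorem idP_iso {Q : Type u} [Group Q] (φ : P →* Q) (ψ : Q →* P) (h1 : ∀ p, ψ (φ p) = p)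
    (h2 : ∀ q, φ (ψ q) = q) {x : P} (h : IdP (φ x)) : IdP x := by
  intro l hl g f hf
  have h3 : vl (φ x) (l.map (fun t => (φ t.1, t.2))) = φ (vl x l) := by
    rw [vl, vl, List.map_map, map_list_prod, List.map_map]
    congr 1
    refine List.map_congr_left fun t _ => ?_
    obtain ⟨d, b⟩ := t
    cases b
    · simp
    · simp
  have h4 : cs (fun d => f (ψ d)) (l.map (fun t => (φ t.1, t.2))) = cs f l := by
    rw [cs, cs, List.map_map]
    congr 1
    refine List.map_congr_left fun t _ => ?_
    simp [h1]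
  rw [← h4]
  refine h _ (by rw [h3, hl, map_one]) (φ g) _ ⟨fun d hd => hf.1 _ ?_, fun d hd => hf.2 _ fun h5 => hd ?_⟩
  · have := XF.nc_map ψ hd
    rw [map_mul, map_inv, h1, h1] at this
    exact this
  · have := XF.nc_map φ h5
    rw [map_mul, map_inv, h2] at this
    exact this

theorem toI_ofI (A B : Type u) [Group A] [Group B] (y : CoprodI (XF.AB A B)) :
    XF.toI A B (XF.ofI A B y) = y := by
  have h : (XF.toI A B).comp (XF.ofI A B) = MonoidHom.id _ := by
    apply CoprodI.ext_hom
    intro s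
    cases s
    · ext g
      show XF.toI A B (XF.ofI A B (CoprodI.of (M := XF.AB A B) (i := false) g)) = _
      rw [XF.ofI_false, XF.toI_inl]
      rfl
    · ext g
      show XF.toI A B (XF.ofI A B (CoprodI.of (M := XF.AB A B) (i := true) g)) = _
      rw [XF.ofI_true, XF.toI_inr]
      rfl
  exact DFunLike.congr_fun h y

end AM

open AM

theorem ami_of : S_ASPW.{u} → S_AMI.{u} := by
  intro h G _ hG x hx hp
  rcases s_cyc G x with h1 | ⟨k, hk, a, b, c, ha, hb, rfl⟩
  · exact absurd h1 hx
  refine asph_of_idP (idP_conj ?_ c)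
  intro l hl g f hf
  refine h G hG k a b ha hb ?_ l hl g f hf.1 hf.2
  intro d hd hab
  obtain ⟨s, n, hn, hs⟩ := s_per (CoprodI G) k (fun i => CoprodI.of (a i)) (fun i => CoprodI.of (b i)) d hd
    (fun i => by rw [hab.1]) (fun i => by rw [hab.2])
  refine hp (c * s * c⁻¹) n hn ?_
  rw [conj_pow, hs]

theorem acop_of : S_AMI.{u} → S_ACOP.{u} := by
  intro h A B _ _ hA hB r hr1 hr2 hp
  have hLO : ∀ s, LO (XF.AB A B s) := by
    intro s
    cases s
    · exact hA
    · exact hB
  have hx : ¬ ∃ (s : Bool) (g : XF.AB A B s) (c : CoprodI (XF.AB A B)),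
      XF.toI A B r = c * CoprodI.of g * c⁻¹ := by
    rintro ⟨s, g, c, hc⟩
    cases s
    · apply hr1 (XF.ofI A B c) g
      rw [← XF.ofI_toI A B r, hc, map_mul, map_mul, map_inv]
      exact congrArg (fun t => XF.ofI A B c * t * (XF.ofI A B c)⁻¹) (XF.ofI_false A B g)
    · apply hr2 (XF.ofI A B c) g
      rw [← XF.ofI_toI A B r, hc, map_mul, map_mul, map_inv]
      exact congrArg (fun t => XF.ofI A B c * t * (XF.ofI A B c)⁻¹) (XF.ofI_true A B g)
  refine asph_of_idP (idP_iso (XF.toI A B) (XF.ofI A B) (XF.ofI_toI A B) (toI_ofI A B)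
    (idP_of_asph (h (XF.AB A B) hLO (XF.toI A B r) hx ?_)))
  intro s n hn hs
  refine hp (XF.ofI A B s) n hn ?_
  rw [← map_pow, hs, XF.ofI_toI]

theorem ord_of : S_ACOP.{u} → S_ORD.{u} := by
  classical
  intro h A B _ _ hA hB r hr1 hr2 hp m j hj
  have hA' := h A B hA hB r hr1 hr2 hp
  obtain ⟨l, hl⟩ := exists_vl (r ^ m) hj
  set f : Coprod A B → ℤ := fun c =>
    if c ∈ Subgroup.normalClosure ({r} : Set (Coprod A B)) then 1 else 0 with hf
  set L : List (Coprod A B × ℤ) := (il l).map (fun t => (t.1, if t.2 = true then m else -m))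
    with hL
  have h1 : (L.map (fun t => (t.1 * r * t.1⁻¹) ^ t.2)).prod = (r ^ j)⁻¹ := by
    rw [← hl, ← vl_il, hL, List.map_map, vl]
    congr 1
    refine List.map_congr_left fun t _ => ?_
    obtain ⟨c, b⟩ := t
    cases b
    · simp [conj_zpow]
    · simp [conj_zpow]
  have h2 := hA' ((1, j) :: L) (by
    rw [List.map_cons, List.prod_cons, h1]
    simp) 1 f (fun c hc => by
      rw [inv_one, one_mul] at hc
      rw [hf]
      simp only [if_pos hc]) (fun c hc => by
      rw [inv_one, one_mul] at hc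
      rw [hf]
      simp only [if_neg hc])
  rw [List.map_cons, List.sum_cons] at h2
  have h3 : f 1 = 1 := by
    rw [hf]
    simp only [if_pos (Subgroup.one_mem _)]
  have h4 : ∀ M : List (Coprod A B × Bool), m ∣
      ((M.map (fun t => (t.1, if t.2 = true then m else -m))).map (fun t => f t.1 * t.2)).sum := by
    intro M
    induction M with
    | nil => simp
    | cons t M ih =>
      rw [List.map_cons, List.map_cons, List.sum_cons]
      refine dvd_add (Dvd.dvd.mul_left ?_ _) ih
      split_ifs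
      · exact dvd_rfl
      · exact (dvd_neg).2 dvd_rfl
  have h5 := h4 (il l)
  rw [← hL] at h5
  simp only [h3, one_mul] at h2
  have h6 : j = -(L.map (fun t => f t.1 * t.2)).sum := by linarith
  rw [h6]
  exact (dvd_neg).2 h5

end Pool.Agent.H341.FS
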